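import Mathlib

namespace Pool.Agent.helper88.GH

open SimpleGraph

variable {W : Type*} {T : SimpleGraph W}

theorem exists_parent (hT : T.IsTree) (r t : W) (h : t ≠ r) :
    ∃ p, T.Adj p t ∧ T.dist r t = T.dist r p + 1 := by
  obtain ⟨P, hP, hlen⟩ := hT.connected.exists_path_of_dist r t
  have hnil : ¬ P.Nil := fun hn => h (hn.eq).symm
  have hadj : T.Adj P.penultimate t := P.adj_penultimate hnil
  refine ⟨P.penultimate, hadj, ?_⟩
  rcases hT.dist_eq_dist_add_one_of_adj r hadj with h1 | h1
  · exfalso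
    have h2 : T.dist r P.penultimate ≤ P.dropLast.length := T.dist_le P.dropLast
    have h3 : P.dropLast.length ≤ P.length := by
      rw [Walk.length_dropLast]; omega
    omega
  · exact h1

/-- In a tree, the neighbour closer to `r` is unique. -/
theorem parent_unique (hT : T.IsTree) (r t p q : W) (hp : T.Adj p t) (hq : T.Adj q t)
    (hp' : T.dist r t = T.dist r p + 1) (hq' : T.dist r t = T.dist r q + 1) : p = q := by
  classical
  have key : ∀ x, T.Adj x t → T.dist r t = T.dist r x + 1 →
      ∃ P : T.Walk r t, P.IsPath ∧ P.penultimate = x := by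
    intro x hx hx'
    obtain ⟨P, hP, hlen⟩ := hT.connected.exists_path_of_dist r x
    have hns : t ∉ P.support := by
      intro hmem
      have h1 : T.dist r t ≤ (P.takeUntil t hmem).length := T.dist_le _
      have h2 := P.length_takeUntil_le hmem
      omega
    exact ⟨P.concat hx, hP.concat hns hx, by simp⟩
  obtain ⟨P, hP, rfl⟩ := key p hp hp'
  obtain ⟨Q, hQ, rfl⟩ := key q hq hq'
  have := (hT.isAcyclic.subsingleton_path r t).elim ⟨P, hP⟩ ⟨Q, hQ⟩
  rw [Subtype.mk.inj this]

theorem exists_pos {V : Type*} (r : W) (par : W → W) (d : W → ℕ)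
    (hd : ∀ t, t ≠ r → d (par t) < d t) (σ : W → Equiv.Perm V) :
    ∃ pos : W → Equiv.Perm V, pos r = 1 ∧ ∀ t, t ≠ r → ∀ k, pos t k = σ t (pos (par t) k) := by
  classical
  have wf : WellFounded (fun a b : W => d a < d b) := (measure d).wf
  let F : (t : W) → ((s : W) → d s < d t → Equiv.Perm V) → Equiv.Perm V :=
    fun t rec => if h : t = r then 1 else (rec (par t) (hd t h)).trans (σ t)
  refine ⟨wf.fix F, ?_, ?_⟩
  · rw [wf.fix_eq]
    simp [F]
  · intro t ht k
    rw [wf.fix_eq]
    simp [F, ht]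

end Pool.Agent.helper88.GH
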